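import Pool.Agent.Y138.BA.Exp

set_option autoImplicit false

namespace Pool.Agent.Results.MP_728aaa_nt.OneTwoDigits

open Pool.Agent.Y138.BA

/-- **Badly approximable numbers with given exponents, uniform form.** Let `n ≥ 2`, `τ ≥ 1` and let
`L` be any finite list of ones and twos. There is `ξ` whose continued fraction begins with `L` and
has all partial quotients `1` or `2` (so `|ξ - p/q| ≥ 1/(6 q²)` for all `p/q`, with a constant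
independent of `n` and `τ`), such that `w_k(ξ) = τ (n + 1) - 1` for all `k` from `2` to `n`. There is
also such a `ξ` with `w_k^*(ξ) = τ (n + 1) - 1` (with complex and with real algebraic numbers) and
`w_k(ξ) = τ (n + 1)` for all `k` from `2` to `n`. -/
theorem result (n : ℕ) (hn : 2 ≤ n) (τ : ℝ) (hτ : 1 ≤ τ) (L : List ℕ)
    (hL : ∀ a ∈ L, a = 1 ∨ a = 2) :
    (∃ ξ : ℝ, OneTwoFrom ξ L ∧ BadlyApproximable ξ ∧
      (∀ p q : ℤ, 1 ≤ q → (1 / 6 : ℝ) / (q : ℝ) ^ 2 ≤ |ξ - (p : ℝ) / (q : ℝ)|) ∧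
      ∀ k, 2 ≤ k → k ≤ n → wMahler ξ k = ((τ * ((n : ℝ) + 1) - 1 : ℝ) : EReal)) ∧
    (∃ ξ : ℝ, OneTwoFrom ξ L ∧ BadlyApproximable ξ ∧
      (∀ p q : ℤ, 1 ≤ q → (1 / 6 : ℝ) / (q : ℝ) ^ 2 ≤ |ξ - (p : ℝ) / (q : ℝ)|) ∧
      ∀ k, 2 ≤ k → k ≤ n → wKoksma ξ k = ((τ * ((n : ℝ) + 1) - 1 : ℝ) : EReal) ∧
        wKoksmaReal ξ k = ((τ * ((n : ℝ) + 1) - 1 : ℝ) : EReal) ∧
        wMahler ξ k = ((τ * ((n : ℝ) + 1) : ℝ) : EReal)) := by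
  have hn2 : (2 : ℝ) ≤ n := by exact_mod_cast hn
  have hw : (n : ℝ) ≤ τ * ((n : ℝ) + 1) - 1 := by nlinarith
  obtain ⟨⟨s, h1, h2⟩, s', h3, h4⟩ := main n hn _ hw L hL
  refine ⟨⟨_, ⟨dig s, isCF_eta s, dig_mem s, h1⟩, bad_eta s, bad_key s, h2⟩,
    ⟨_, ⟨dig s', isCF_eta s', dig_mem s', h3⟩, bad_eta s', bad_key s', fun k hk2 hkn => ?_⟩⟩
  obtain ⟨h5, h6, h7⟩ := h4 k hk2 hkn
  refine ⟨h5, h6, ?_⟩
  rw [h7]
  congr 1
  ring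

end Pool.Agent.Results.MP_728aaa_nt.OneTwoDigits
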